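import Pool.Agent.V11258.EQ.Main

/-! MP_5af839_lc: there is a graph property whose edge-query game is not determined. -/

namespace Pool.Agent.Results.MP_5af839_lc.NonDetermined

open V11258.EQ

theorem result : ∃ S : Set (SimpleGraph ℕ), IsProperty S ∧ ¬ SeekerWins S ∧ ¬ HiderWins S :=
  main

end Pool.Agent.Results.MP_5af839_lc.NonDetermined
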